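import Mathlib

/-!
# BT module CORE: a connected set of grid points with increasing copies has at most `s` elements

Abstract form: `q i K` is the position of the copy `i` of `K`, `r K` the position of the centre, `σ K` the page of the
star at `K`, `T` the adjacency of the grid.

PROOF.
(1) If `T K K'`, `q 0 K < q 1 K`, `q 0 K' < q 1 K'` then (by `hom`) `q i K < q j K` and `q i K' < q j K'` for all `i < j`.
Claim: `q i K < q j K'` for all `i < j` (and symmetrically `q i K' < q j K`).  Let `i < j`.  If `q i K < q i K'` then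
`q i K < q i K' < q j K'`.  If `q i K' < q i K`: if `q j K < q j K'` then `q i K < q j K < q j K'`; if `q j K' < q j K` and
`q j K' < q i K` then `q i K' < q j K' < q i K < q j K`, excluded by `h1` for `T K' K`.
(2) Put `R K K' : ∀ i < j, q i K < q j K'`.  By `hom` and an index between (`0 < 1 < 2`) `R` is transitive:
`q 0 K < q 1 K₁ < q 2 K'`, and `hom` gives all `i < j`.  So `R K K'` for all `K, K' ∈ S` (connectedness; `R K K` from `hS` and `hom`).
(3) If `s < S.card` there are `K ≠ K'` in `S` with `σ K = σ K'` (pigeonhole), w.l.o.g. `r K < r K'`.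
If `q 1 K' < r K`: `h3 K K' 0 1` (`q 0 K < q 1 K' < r K < r K'`).  Otherwise `r K < q 1 K' < q 2 K'`.
If `r K' < q 4 K`: `h2 K K' 4 5`.  Otherwise `q 3 K < q 4 K < r K'` and `h4 K K' 3 2` (`r K < q 2 K' < q 3 K < r K'`).
-/

set_option autoImplicit false

namespace Pool.Agent.BT

theorem core {W : Type} {s : ℕ} (T : W → W → Prop) (hT : ∀ K K', T K K' → T K' K)
    (q : Fin 6 → W → ℕ) (r : W → ℕ) (σ : W → Fin s)
    (hq : ∀ i K j K', q i K = q j K' → i = j ∧ K = K')
    (hrq : ∀ K i K', r K ≠ q i K') (hr : ∀ K K', r K = r K' → K = K')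
    (h1 : ∀ K K' i j, T K K' → ¬ (q i K < q j K ∧ q j K < q i K' ∧ q i K' < q j K'))
    (hom : ∀ (K K' : W) (i j k l : Fin 6), i < j → k < l → (q i K < q j K' ↔ q k K < q l K'))
    (h2 : ∀ K K' i j, σ K = σ K' → ¬ (r K < r K' ∧ r K' < q i K ∧ q i K < q j K'))
    (h3 : ∀ K K' i j, σ K = σ K' → ¬ (q i K < q j K' ∧ q j K' < r K ∧ r K < r K'))
    (h4 : ∀ K K' i j, σ K = σ K' → ¬ (r K < q j K' ∧ q j K' < q i K ∧ q i K < r K'))
    (S : Finset W) (hS : ∀ K ∈ S, q 0 K < q 1 K)
    (hconn : ∀ K ∈ S, ∀ K' ∈ S, Relation.ReflTransGen (fun u v => T u v ∧ u ∈ S ∧ v ∈ S) K K') :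
    S.card ≤ s := by
  have hself : ∀ K ∈ S, ∀ i j : Fin 6, i < j → q i K < q j K := fun K hK i j hij =>
    (hom K K 0 1 i j (by decide) hij).1 (hS K hK)
  have hstep : ∀ K ∈ S, ∀ K' ∈ S, T K K' → ∀ i j : Fin 6, i < j → q i K < q j K' := by
    intro K hK K' hK' ht i j hij
    rcases lt_trichotomy (q i K) (q j K') with h | h | h
    · exact h
    · exact absurd (hq i K j K' h).1 (ne_of_lt hij)
    · exact absurd ⟨hself K' hK' i j hij, h, hself K hK i j hij⟩ (h1 K' K i j (hT _ _ ht))
  have hR : ∀ K ∈ S, ∀ K' ∈ S, ∀ i j : Fin 6, i < j → q i K < q j K' := by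
    intro K hK K' hK' 
    have hc := hconn K hK K' hK'
    have hind : ∀ L, Relation.ReflTransGen (fun u v => T u v ∧ u ∈ S ∧ v ∈ S) K L →
        ∀ i j : Fin 6, i < j → q i K < q j L := by
      intro L hL
      induction hL with
      | refl => exact hself K hK
      | tail _ h2 ih =>
        intro i j hij
        refine (hom K _ 0 2 i j (by decide) hij).1 ?_
        exact (ih 0 1 (by decide)).trans (hstep _ h2.2.1 _ h2.2.2 h2.1 1 2 (by decide))
    exact hind K' hc
  have hlt : ∀ K ∈ S, ∀ K' ∈ S, σ K = σ K' → ¬ r K < r K' := by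
    intro K hK K' hK' hσ hr'
    rcases lt_trichotomy (q 1 K') (r K) with h | h | h
    · exact h3 K K' 0 1 hσ ⟨hR K hK K' hK' 0 1 (by decide), h, hr'⟩
    · exact hrq K 1 K' h.symm
    · rcases lt_trichotomy (r K') (q 4 K) with h' | h' | h'
      · exact h2 K K' 4 5 hσ ⟨hr', h', hR K hK K' hK' 4 5 (by decide)⟩
      · exact hrq K' 4 K h'
      · exact h4 K K' 3 2 hσ ⟨h.trans (hself K' hK' 1 2 (by decide)),
          hR K' hK' K hK 2 3 (by decide), (hself K hK 3 4 (by decide)).trans h'⟩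
  by_contra hcard
  rw [not_le] at hcard
  obtain ⟨K, hK, K', hK', hne, hσ⟩ := Finset.exists_ne_map_eq_of_card_lt_of_maps_to
    (s := S) (t := (Finset.univ : Finset (Fin s))) (by rwa [Finset.card_univ, Fintype.card_fin])
    (f := σ) (fun K _ => Finset.mem_univ (σ K))
  rcases lt_trichotomy (r K) (r K') with h | h | h
  · exact hlt K hK K' hK' hσ h
  · exact hne (hr K K' h)
  · exact hlt K' hK' K hK hσ.symm h

end Pool.Agent.BT
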