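import Mathlib

/-!
# BT: graphs whose 1-subdivision has a 4-page book embedding and whose own book thickness is unbounded

`GG n a` has `a` disjoint copies of the triangulated `n × n` grid (vertices `inl (i, K)`) and for every grid
point `K` one centre `inr K` joined to all the copies `inl (i, K)` of `K`.

Blueprint: `Ram` (Ramsey), `Core` (a connected set of grid points with increasing copies has at most `s` elements),
`HexPar`, `HexCon` (Hex lemma), `Low` (lower bound), `Lay` (4-page embedding of the 1-subdivision), `Final`.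
-/

set_option autoImplicit false

namespace Pool.Agent.BT

/-- the vertices: copies `inl (i, K)` of the grid points, centres `inr K` -/
abbrev VT (n a : ℕ) : Type := (Fin a × (Fin n × Fin n)) ⊕ (Fin n × Fin n)

/-- a positive step of the triangulated grid -/
def stp (K K' : ℕ × ℕ) : Prop :=
  (K'.1 = K.1 ∧ K'.2 = K.2 + 1) ∨ (K'.1 = K.1 + 1 ∧ K'.2 = K.2) ∨
    (K'.1 = K.1 + 1 ∧ K'.2 = K.2 + 1)

/-- adjacency in the triangulated grid -/
def TR {n : ℕ} (K K' : Fin n × Fin n) : Prop :=
  stp (K.1.val, K.2.val) (K'.1.val, K'.2.val) ∨ stp (K'.1.val, K'.2.val) (K.1.val, K.2.val)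

/-- adjacency in `GG n a` -/
def adjB {n a : ℕ} : VT n a → VT n a → Prop
  | Sum.inl (i, K), Sum.inl (j, K') => i = j ∧ TR K K'
  | Sum.inl (_, K), Sum.inr K' => K = K'
  | Sum.inr K, Sum.inl (_, K') => K = K'
  | Sum.inr _, Sum.inr _ => False

theorem TR_symm {n : ℕ} {K K' : Fin n × Fin n} (h : TR K K') : TR K' K := by
  unfold TR at *
  tauto

theorem not_TR_self {n : ℕ} (K : Fin n × Fin n) : ¬ TR K K := by
  intro h
  simp only [TR, stp] at h
  omega

theorem adjB_symm {n a : ℕ} {u v : VT n a} (h : adjB u v) : adjB v u := by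
  rcases u with ⟨i, K⟩ | K <;> rcases v with ⟨j, K'⟩ | K'
  · exact ⟨h.1.symm, TR_symm h.2⟩
  · exact Eq.symm h
  · exact Eq.symm h
  · exact h

theorem not_adjB_self {n a : ℕ} (u : VT n a) : ¬ adjB u u := by
  rcases u with ⟨i, K⟩ | K
  · intro h
    exact not_TR_self K h.2
  · intro h
    exact h

/-- the graph -/
def GG (n a : ℕ) : SimpleGraph (VT n a) where
  Adj := adjB
  symm := ⟨fun _ _ h => adjB_symm h⟩
  loopless := ⟨fun u h => not_adjB_self u h⟩

/-- an `s`-page book embedding (in the format of the frozen statement) -/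
def Pages {V : Type} (G : SimpleGraph V) (s : ℕ) : Prop :=
  ∃ p : V → ℕ, Function.Injective p ∧
    ∃ c : V → V → Fin s,
      (∀ u v, c u v = c v u) ∧
      ∀ a b x y : V, G.Adj a b → G.Adj x y →
        p a < p x → p x < p b → p b < p y → c a b ≠ c x y

/-- the 1-subdivision (in the format of the frozen statement) -/
def Sub1 {V : Type} (G : SimpleGraph V) : SimpleGraph (V ⊕ ↥G.edgeSet) :=
  SimpleGraph.fromRel (fun s t : V ⊕ ↥G.edgeSet =>
    ∃ (v : V) (e : ↥G.edgeSet), s = Sum.inl v ∧ t = Sum.inr e ∧ v ∈ (e : Sym2 V))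

end Pool.Agent.BT
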