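import Mathlib

/-!
# BT module RANK: an injective key into a linear order gives an order isomorphic key in `ℕ`

PROOF.  `p x = #{y | key y < key x}` (`Finset.card_lt_card` for strictness, injectivity from trichotomy).
-/

set_option autoImplicit false

namespace Pool.Agent.BT

theorem rank {X L : Type} [Finite X] [LinearOrder L] (key : X → L) (hk : Function.Injective key) :
    ∃ p : X → ℕ, Function.Injective p ∧ ∀ x y, p x < p y ↔ key x < key y := by
  classical
  have : Fintype X := Fintype.ofFinite X
  have hmono : ∀ x y, key x < key y →
      (Finset.univ.filter fun z => key z < key x).card <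
        (Finset.univ.filter fun z => key z < key y).card := by
    intro x y h
    apply Finset.card_lt_card
    rw [Finset.ssubset_iff_of_subset]
    · refine ⟨x, ?_, ?_⟩
      · simp [h]
      · simp
    · intro z hz
      simp only [Finset.mem_filter, Finset.mem_univ, true_and] at hz ⊢
      exact hz.trans h
  refine ⟨fun x => (Finset.univ.filter fun z => key z < key x).card, ?_, ?_⟩
  · intro x y h
    rcases lt_trichotomy (key x) (key y) with h1 | h1 | h1
    · exact absurd h (hmono x y h1).ne
    · exact hk h1
    · exact absurd h (hmono y x h1).ne'
  · intro x y
    constructor
    · intro h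
      rcases lt_trichotomy (key x) (key y) with h1 | h1 | h1
      · exact h1
      · rw [hk h1] at h
        exact absurd h (lt_irrefl _)
      · exact absurd h (hmono y x h1).not_gt
    · exact hmono x y

end Pool.Agent.BT
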