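import Pool.Agent.BT.Defs
import Pool.Agent.BT.Rank

/-!
# BT module LAY: the 1-subdivision of `GG n a` has a 4-page book embedding

Coordinates of a vertex `v`: `cx v, cy v` (grid coordinates, for copies and for centres), `ci v = i + 1` for `inl (i, K)` and `0` for `inr K`.
Keys (lexicographic order on `ℤ ×ₗ ℤ ×ₗ ℤ ×ₗ ℤ ×ₗ ℤ`, or nested `Prod.Lex`; any linear order is fine because of `rank`):
* vertex `v`: `(0, cx v, cy v, ci v, if ci v = 0 then 0 else 1)`;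
* division vertex of the edge `e = {u, v}`: let `mi, ma` be the minimum and the maximum of `ci u, ci v`, `mx = min (cx u) (cx v)`,
  `my = max (cy u) (cy v)`, `dx = |cx u - cx v|`, `dy = |cy u - cy v|`.  If `mi = 0` (star edge): `(0, mx, my, ma, 0)`,
  otherwise `(1, -mx, -my, -ma, -(2 dx + dy))`.
(Take `(u, v) = Quot.out e` or `Sym2.lift`.)  The key is injective on `VT ⊕ edgeSet`: the types `(dx, dy) = (0,1), (1,0), (1,1)` have codes `1, 2, 3`,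
and `(mx, my, ma, dx, dy)` determines the grid edge: its left end is `(mx, my - 1)`, `(mx, my)`, `(mx, my - 1)`, its right end
`(mx, my)`, `(mx + 1, my)`, `(mx + 1, my)` respectively.
Pages of the arc from the vertex `v` to the division vertex of `e`: `3` if `e` is a star edge, otherwise `0, 1, 2` if
`(cx v, cy v)` is `(mx, my - 1)`, `(mx, my)`, `(mx + 1, my)` respectively (`v` is always one of these three).

No two arcs of one page cross.  Page `0, 1, 2`: an arc joins a key with first entry `0` to a key with first entry `1`, and for two arcs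
`(v, e)`, `(v', e')` of the same page `key v < key v'` implies `(mx, my, ma) ≤ (mx', my', ma')` lexicographically, even `<`, so
`key e' < key e` (nested).  Page `3`: all arcs are inside blocks of fixed `(cx, cy)`; the block is
`centre, s_1, V_1, s_2, V_2, …` with arcs `centre - s_i` and `s_i - V_i`.
(The layout was checked by computer for n, a ≤ 4.)
-/

set_option autoImplicit false

namespace Pool.Agent.BT

namespace LayAux

/-- the type of the keys -/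
abbrev LL : Type := Lex (ℤ × Lex (ℤ × Lex (ℤ × Lex (ℤ × ℤ))))

/-- a key -/
def kk (a b c d e : ℤ) : LL := toLex (a, toLex (b, toLex (c, toLex (d, e))))

theorem kk_lt {a b c d e a' b' c' d' e' : ℤ} : kk a b c d e < kk a' b' c' d' e' ↔
    a < a' ∨ a = a' ∧ (b < b' ∨ b = b' ∧ (c < c' ∨ c = c' ∧ (d < d' ∨ d = d' ∧ e < e'))) := by
  unfold kk
  simp only [Prod.Lex.toLex_lt_toLex]

theorem kk_inj {a b c d e a' b' c' d' e' : ℤ} (h : kk a b c d e = kk a' b' c' d' e') :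
    a = a' ∧ b = b' ∧ c = c' ∧ d = d' ∧ e = e' := by
  have h1 := toLex.injective h
  rw [Prod.mk.injEq] at h1
  have h2 := toLex.injective h1.2
  rw [Prod.mk.injEq] at h2
  have h3 := toLex.injective h2.2
  rw [Prod.mk.injEq] at h3
  have h4 := toLex.injective h3.2
  rw [Prod.mk.injEq] at h4
  exact ⟨h1.1, h2.1, h3.1, h4.1, h4.2⟩

variable {n a : ℕ}

/-- first grid coordinate -/
def cx : VT n a → ℤ
  | Sum.inl (_, K) => (K.1.val : ℤ)
  | Sum.inr K => (K.1.val : ℤ)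

/-- second grid coordinate -/
def cy : VT n a → ℤ
  | Sum.inl (_, K) => (K.2.val : ℤ)
  | Sum.inr K => (K.2.val : ℤ)

/-- number of the copy, `0` for centres -/
def ci : VT n a → ℤ
  | Sum.inl (i, _) => (i.val : ℤ) + 1
  | Sum.inr _ => 0

theorem ci_nonneg (v : VT n a) : 0 ≤ ci v := by
  rcases v with ⟨i, K⟩ | K
  · show (0 : ℤ) ≤ (i.val : ℤ) + 1
    omega
  · exact le_refl _

theorem ext_v {u v : VT n a} (h1 : cx u = cx v) (h2 : cy u = cy v) (h3 : ci u = ci v) : u = v := by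
  rcases u with ⟨i, K⟩ | K <;> rcases v with ⟨j, K'⟩ | K'
  · have e1 : (K.1.val : ℤ) = K'.1.val := h1
    have e2 : (K.2.val : ℤ) = K'.2.val := h2
    have e3 : (i.val : ℤ) + 1 = j.val + 1 := h3
    have f1 : K = K' := Prod.ext (Fin.ext (by omega)) (Fin.ext (by omega))
    have f2 : i = j := Fin.ext (by omega)
    rw [f1, f2]
  · have e3 : (i.val : ℤ) + 1 = 0 := h3
    omega
  · have e3 : (0 : ℤ) = (j.val : ℤ) + 1 := h3
    omega
  · have e1 : (K.1.val : ℤ) = K'.1.val := h1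
    have e2 : (K.2.val : ℤ) = K'.2.val := h2
    have f1 : K = K' := Prod.ext (Fin.ext (by omega)) (Fin.ext (by omega))
    rw [f1]

/-- adjacency in coordinates -/
def AR (u v : VT n a) : Prop :=
  (cx u = cx v ∧ cy u = cy v ∧ ((ci u = 0 ∧ 1 ≤ ci v) ∨ (1 ≤ ci u ∧ ci v = 0))) ∨
  (ci u = ci v ∧ 1 ≤ ci u ∧
    ((cx v = cx u ∧ cy v = cy u + 1) ∨ (cx v = cx u + 1 ∧ cy v = cy u) ∨
      (cx v = cx u + 1 ∧ cy v = cy u + 1) ∨ (cx u = cx v ∧ cy u = cy v + 1) ∨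
      (cx u = cx v + 1 ∧ cy u = cy v) ∨ (cx u = cx v + 1 ∧ cy u = cy v + 1)))

theorem adj_arith {u v : VT n a} (h : (GG n a).Adj u v) : AR u v := by
  rcases u with ⟨i, K⟩ | K <;> rcases v with ⟨j, K'⟩ | K'
  · obtain ⟨h1, h2⟩ : i = j ∧ TR K K' := h
    right
    subst h1
    refine ⟨rfl, ?_, ?_⟩
    · show (1 : ℤ) ≤ (i.val : ℤ) + 1
      omega
    · simp only [TR, stp] at h2
      show ((K'.1.val : ℤ) = K.1.val ∧ (K'.2.val : ℤ) = K.2.val + 1) ∨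
        ((K'.1.val : ℤ) = K.1.val + 1 ∧ (K'.2.val : ℤ) = K.2.val) ∨
        ((K'.1.val : ℤ) = K.1.val + 1 ∧ (K'.2.val : ℤ) = K.2.val + 1) ∨
        ((K.1.val : ℤ) = K'.1.val ∧ (K.2.val : ℤ) = K'.2.val + 1) ∨
        ((K.1.val : ℤ) = K'.1.val + 1 ∧ (K.2.val : ℤ) = K'.2.val) ∨
        ((K.1.val : ℤ) = K'.1.val + 1 ∧ (K.2.val : ℤ) = K'.2.val + 1)
      omega
  · have h1 : K = K' := h
    subst h1
    refine Or.inl ⟨rfl, rfl, Or.inr ⟨?_, rfl⟩⟩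
    show (1 : ℤ) ≤ (i.val : ℤ) + 1
    omega
  · have h1 : K = K' := h
    subst h1
    refine Or.inl ⟨rfl, rfl, Or.inl ⟨rfl, ?_⟩⟩
    show (1 : ℤ) ≤ (j.val : ℤ) + 1
    omega
  · exact absurd h (by intro h; exact h)

/-- key of the division vertex -/
noncomputable def ekey (u w : VT n a) : LL :=
  if min (ci u) (ci w) = 0 then
    kk 0 (min (cx u) (cx w)) (max (cy u) (cy w)) (max (ci u) (ci w)) 0
  else kk 1 (-(min (cx u) (cx w))) (-(max (cy u) (cy w))) (-(max (ci u) (ci w)))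
    (-(2 * (max (cx u) (cx w) - min (cx u) (cx w)) + (max (cy u) (cy w) - min (cy u) (cy w))))

/-- key of a vertex -/
noncomputable def vkey (v : VT n a) : LL :=
  kk 0 (cx v) (cy v) (ci v) (if ci v = 0 then 0 else 1)

/-- page -/
noncomputable def pg (v u w : VT n a) : Fin 4 :=
  if min (ci u) (ci w) = 0 then 3
  else if cx v = min (cx u) (cx w) ∧ cy v + 1 = max (cy u) (cy w) then 0
  else if cx v = min (cx u) (cx w) ∧ cy v = max (cy u) (cy w) then 1 else 2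

theorem ends {u w v : VT n a} (h : AR u w) (hv : v = u ∨ v = w) :
    ∃ mx my ma z : ℤ, 1 ≤ ma ∧
      ((pg v u w = 3 ∧ ekey u w = kk 0 mx my ma 0 ∧ cx v = mx ∧ cy v = my ∧
          (ci v = 0 ∨ ci v = ma)) ∨
        (ekey u w = kk 1 (-mx) (-my) (-ma) z ∧ ci v = ma ∧
          ((pg v u w = 0 ∧ cx v = mx ∧ cy v + 1 = my) ∨ (pg v u w = 1 ∧ cx v = mx ∧ cy v = my) ∨
            (pg v u w = 2 ∧ cx v = mx + 1 ∧ cy v = my)))) := by
  refine ⟨min (cx u) (cx w), max (cy u) (cy w), max (ci u) (ci w),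
    (-(2 * (max (cx u) (cx w) - min (cx u) (cx w)) + (max (cy u) (cy w) - min (cy u) (cy w)))),
    ?_, ?_⟩
  · unfold AR at h
    omega
  · have hc : (cx v = cx u ∧ cy v = cy u ∧ ci v = ci u) ∨
        (cx v = cx w ∧ cy v = cy w ∧ ci v = ci w) := by
      rcases hv with rfl | rfl
      · exact Or.inl ⟨rfl, rfl, rfl⟩
      · exact Or.inr ⟨rfl, rfl, rfl⟩
    unfold AR at h
    by_cases h0 : min (ci u) (ci w) = 0
    · left
      unfold pg ekey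
      rw [if_pos h0, if_pos h0]
      refine ⟨rfl, rfl, ?_, ?_, ?_⟩ <;> omega
    · right
      unfold pg ekey
      rw [if_neg h0, if_neg h0]
      refine ⟨rfl, by omega, ?_⟩
      by_cases h1 : cx v = min (cx u) (cx w) ∧ cy v + 1 = max (cy u) (cy w)
      · rw [if_pos h1]
        exact Or.inl ⟨rfl, h1.1, h1.2⟩
      · rw [if_neg h1]
        by_cases h2 : cx v = min (cx u) (cx w) ∧ cy v = max (cy u) (cy w)
        · rw [if_pos h2]
          exact Or.inr (Or.inl ⟨rfl, h2.1, h2.2⟩)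
        · rw [if_neg h2]
          refine Or.inr (Or.inr ⟨rfl, ?_, ?_⟩) <;> omega

theorem vkey_inj {u v : VT n a} (h : vkey u = vkey v) : u = v := by
  obtain ⟨_, h1, h2, h3, _⟩ := kk_inj h
  exact ext_v h1 h2 h3

theorem vkey_ne_ekey {u w v : VT n a} (h : AR u w) : vkey v ≠ ekey u w := by
  intro h1
  unfold vkey ekey at h1
  unfold AR at h
  by_cases h0 : min (ci u) (ci w) = 0
  · rw [if_pos h0] at h1
    obtain ⟨_, _, _, h4, h5⟩ := kk_inj h1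
    split_ifs at h5 <;> omega
  · rw [if_neg h0] at h1
    obtain ⟨h2, _⟩ := kk_inj h1
    omega

/-- shape of a grid edge -/
theorem shape {xu yu xw yw : ℤ}
    (h : (xw = xu ∧ yw = yu + 1) ∨ (xw = xu + 1 ∧ yw = yu) ∨
      (xw = xu + 1 ∧ yw = yu + 1) ∨ (xu = xw ∧ yu = yw + 1) ∨
      (xu = xw + 1 ∧ yu = yw) ∨ (xu = xw + 1 ∧ yu = yw + 1)) :
    ∃ mx my d : ℤ, min xu xw = mx ∧ max yu yw = my ∧
      (-(2 * (max xu xw - min xu xw) + (max yu yw - min yu yw))) = d ∧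
      ((d = -1 ∧ xu = mx ∧ yu = my - 1 ∧ xw = mx ∧ yw = my) ∨
       (d = -1 ∧ xw = mx ∧ yw = my - 1 ∧ xu = mx ∧ yu = my) ∨
       (d = -2 ∧ xu = mx ∧ yu = my ∧ xw = mx + 1 ∧ yw = my) ∨
       (d = -2 ∧ xw = mx ∧ yw = my ∧ xu = mx + 1 ∧ yu = my) ∨
       (d = -3 ∧ xu = mx ∧ yu = my - 1 ∧ xw = mx + 1 ∧ yw = my) ∨
       (d = -3 ∧ xw = mx ∧ yw = my - 1 ∧ xu = mx + 1 ∧ yu = my)) := by
  refine ⟨_, _, _, rfl, rfl, rfl, ?_⟩
  rcases h with h | h | h | h | h | h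
  · refine Or.inl ⟨?_, ?_, ?_, ?_, ?_⟩ <;> omega
  · refine Or.inr (Or.inr (Or.inl ⟨?_, ?_, ?_, ?_, ?_⟩)) <;> omega
  · refine Or.inr (Or.inr (Or.inr (Or.inr (Or.inl ⟨?_, ?_, ?_, ?_, ?_⟩)))) <;> omega
  · refine Or.inr (Or.inl ⟨?_, ?_, ?_, ?_, ?_⟩) <;> omega
  · refine Or.inr (Or.inr (Or.inr (Or.inl ⟨?_, ?_, ?_, ?_, ?_⟩))) <;> omega
  · refine Or.inr (Or.inr (Or.inr (Or.inr (Or.inr ⟨?_, ?_, ?_, ?_, ?_⟩)))) <;> omega

theorem shape_inj {xu yu xw yw xu' yu' xw' yw' mx my d mx' my' d' : ℤ} (h1 : mx = mx')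
    (h2 : my = my') (h3 : d = d')
    (h : (d = -1 ∧ xu = mx ∧ yu = my - 1 ∧ xw = mx ∧ yw = my) ∨
       (d = -1 ∧ xw = mx ∧ yw = my - 1 ∧ xu = mx ∧ yu = my) ∨
       (d = -2 ∧ xu = mx ∧ yu = my ∧ xw = mx + 1 ∧ yw = my) ∨
       (d = -2 ∧ xw = mx ∧ yw = my ∧ xu = mx + 1 ∧ yu = my) ∨
       (d = -3 ∧ xu = mx ∧ yu = my - 1 ∧ xw = mx + 1 ∧ yw = my) ∨
       (d = -3 ∧ xw = mx ∧ yw = my - 1 ∧ xu = mx + 1 ∧ yu = my))
    (h' : (d' = -1 ∧ xu' = mx' ∧ yu' = my' - 1 ∧ xw' = mx' ∧ yw' = my') ∨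
       (d' = -1 ∧ xw' = mx' ∧ yw' = my' - 1 ∧ xu' = mx' ∧ yu' = my') ∨
       (d' = -2 ∧ xu' = mx' ∧ yu' = my' ∧ xw' = mx' + 1 ∧ yw' = my') ∨
       (d' = -2 ∧ xw' = mx' ∧ yw' = my' ∧ xu' = mx' + 1 ∧ yu' = my') ∨
       (d' = -3 ∧ xu' = mx' ∧ yu' = my' - 1 ∧ xw' = mx' + 1 ∧ yw' = my') ∨
       (d' = -3 ∧ xw' = mx' ∧ yw' = my' - 1 ∧ xu' = mx' + 1 ∧ yu' = my')) :
    ((xu = xu' ∧ yu = yu') ∧ (xw = xw' ∧ yw = yw')) ∨
      ((xu = xw' ∧ yu = yw') ∧ (xw = xu' ∧ yw = yu')) := by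
  subst h1 h2 h3
  rcases h with ⟨a0, a1, a2, a3, a4⟩ | ⟨a0, a1, a2, a3, a4⟩ | ⟨a0, a1, a2, a3, a4⟩ |
      ⟨a0, a1, a2, a3, a4⟩ | ⟨a0, a1, a2, a3, a4⟩ | ⟨a0, a1, a2, a3, a4⟩ <;>
    subst a1 a2 a3 a4 <;>
    rcases h' with ⟨b0, b1, b2, b3, b4⟩ | ⟨b0, b1, b2, b3, b4⟩ | ⟨b0, b1, b2, b3, b4⟩ |
      ⟨b0, b1, b2, b3, b4⟩ | ⟨b0, b1, b2, b3, b4⟩ | ⟨b0, b1, b2, b3, b4⟩ <;>
    first
      | (exfalso; omega)
      | exact Or.inl ⟨⟨b1.symm, b2.symm⟩, b3.symm, b4.symm⟩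
      | exact Or.inr ⟨⟨b1.symm, b2.symm⟩, b3.symm, b4.symm⟩
      | exact Or.inl ⟨⟨b3.symm, b4.symm⟩, b1.symm, b2.symm⟩
      | exact Or.inr ⟨⟨b3.symm, b4.symm⟩, b1.symm, b2.symm⟩

theorem ekey_cases {u w : VT n a} (h : AR u w) :
    (∃ m : ℤ, ekey u w = kk 0 (cx u) (cy u) m 0 ∧ cx w = cx u ∧ cy w = cy u ∧ 1 ≤ m ∧
      ((ci u = 0 ∧ ci w = m) ∨ (ci u = m ∧ ci w = 0))) ∨
    (∃ mx my d : ℤ, ekey u w = kk 1 (-mx) (-my) (-(ci u)) d ∧ ci w = ci u ∧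
      ((d = -1 ∧ cx u = mx ∧ cy u = my - 1 ∧ cx w = mx ∧ cy w = my) ∨
       (d = -1 ∧ cx w = mx ∧ cy w = my - 1 ∧ cx u = mx ∧ cy u = my) ∨
       (d = -2 ∧ cx u = mx ∧ cy u = my ∧ cx w = mx + 1 ∧ cy w = my) ∨
       (d = -2 ∧ cx w = mx ∧ cy w = my ∧ cx u = mx + 1 ∧ cy u = my) ∨
       (d = -3 ∧ cx u = mx ∧ cy u = my - 1 ∧ cx w = mx + 1 ∧ cy w = my) ∨
       (d = -3 ∧ cx w = mx ∧ cy w = my - 1 ∧ cx u = mx + 1 ∧ cy u = my))) := by
  rcases h with ⟨a1, a2, a3⟩ | ⟨a1, a2, a3⟩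
  · left
    refine ⟨max (ci u) (ci w), ?_, a1.symm, a2.symm, ?_, ?_⟩
    · unfold ekey
      have h0 : min (ci u) (ci w) = 0 := by omega
      rw [if_pos h0, a1, a2, min_self, max_self]
    · omega
    · rcases a3 with a3 | a3
      · exact Or.inl ⟨a3.1, by omega⟩
      · exact Or.inr ⟨by omega, a3.2⟩
  · right
    obtain ⟨mx, my, d, e1, e2, e3, e4⟩ := shape a3
    refine ⟨mx, my, d, ?_, a1.symm, e4⟩
    unfold ekey
    have h0 : ¬ min (ci u) (ci w) = 0 := by omega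
    rw [if_neg h0, e3, e1, e2, ← a1, max_self]

theorem ekey_inj {u w u' w' : VT n a} (h : AR u w) (h' : AR u' w') (hk : ekey u w = ekey u' w') :
    (u = u' ∧ w = w') ∨ (u = w' ∧ w = u') := by
  rcases ekey_cases h with ⟨m, a1, a2, a3, a4, a5⟩ | ⟨mx, my, d, a1, a2, a3⟩
  · rcases ekey_cases h' with ⟨m', b1, b2, b3, b4, b5⟩ | ⟨mx', my', d', b1, b2, b3⟩
    · rw [a1, b1] at hk
      obtain ⟨_, h2, h3, h4, _⟩ := kk_inj hk
      rcases a5 with ⟨a5, a6⟩ | ⟨a5, a6⟩ <;> rcases b5 with ⟨b5, b6⟩ | ⟨b5, b6⟩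
      · exact Or.inl ⟨ext_v h2 h3 (by omega), ext_v (by omega) (by omega) (by omega)⟩
      · exact Or.inr ⟨ext_v (by omega) (by omega) (by omega),
          ext_v (by omega) (by omega) (by omega)⟩
      · exact Or.inr ⟨ext_v (by omega) (by omega) (by omega),
          ext_v (by omega) (by omega) (by omega)⟩
      · exact Or.inl ⟨ext_v h2 h3 (by omega), ext_v (by omega) (by omega) (by omega)⟩
    · rw [a1, b1] at hk
      obtain ⟨h2, _⟩ := kk_inj hk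
      exact absurd h2 (by norm_num)
  · rcases ekey_cases h' with ⟨m', b1, b2, b3, b4, b5⟩ | ⟨mx', my', d', b1, b2, b3⟩
    · rw [a1, b1] at hk
      obtain ⟨h2, _⟩ := kk_inj hk
      exact absurd h2 (by norm_num)
    · rw [a1, b1] at hk
      obtain ⟨_, h2, h3, h4, h5⟩ := kk_inj hk
      have hci : ci u = ci u' := neg_injective h4
      rcases shape_inj (neg_injective h2) (neg_injective h3) h5 a3 b3 with
        ⟨⟨g1, g2⟩, g3, g4⟩ | ⟨⟨g1, g2⟩, g3, g4⟩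
      · exact Or.inl ⟨ext_v g1 g2 hci, ext_v g3 g4 (a2.trans (hci.trans b2.symm))⟩
      · exact Or.inr ⟨ext_v g1 g2 (hci.trans b2.symm), ext_v g3 g4 (a2.trans hci)⟩

theorem exists_rep (e : ↥(GG n a).edgeSet) :
    ∃ q : VT n a × VT n a, (e : Sym2 (VT n a)) = s(q.1, q.2) ∧ AR q.1 q.2 := by
  obtain ⟨e, he⟩ := e
  induction e with
  | _ u w =>
    rw [SimpleGraph.mem_edgeSet] at he
    exact ⟨(u, w), rfl, adj_arith he⟩

theorem sub1_cases {s t : VT n a ⊕ ↥(GG n a).edgeSet} (h : (Sub1 (GG n a)).Adj s t) :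
    (∃ (v : VT n a) (e : ↥(GG n a).edgeSet), s = Sum.inl v ∧ t = Sum.inr e ∧
      v ∈ (e : Sym2 (VT n a))) ∨
    (∃ (v : VT n a) (e : ↥(GG n a).edgeSet), s = Sum.inr e ∧ t = Sum.inl v ∧
      v ∈ (e : Sym2 (VT n a))) := by
  unfold Sub1 at h
  rw [SimpleGraph.fromRel_adj] at h
  rcases h.2 with ⟨v, e, h1, h2, h3⟩ | ⟨v, e, h1, h2, h3⟩
  · exact Or.inl ⟨v, e, h1, h2, h3⟩
  · exact Or.inr ⟨v, e, h2, h1, h3⟩

theorem vkey_eq (v : VT n a) : (ci v = 0 ∧ vkey v = kk 0 (cx v) (cy v) 0 0) ∨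
    (1 ≤ ci v ∧ vkey v = kk 0 (cx v) (cy v) (ci v) 1) := by
  have h := ci_nonneg v
  unfold vkey
  by_cases h0 : ci v = 0
  · left
    refine ⟨h0, ?_⟩
    rw [if_pos h0, h0]
  · right
    refine ⟨by omega, ?_⟩
    rw [if_neg h0]

theorem cross_vv {v v' : VT n a} {P P' : Fin 4} {K K' : LL} {mx my ma z mx' my' ma' z' : ℤ}
    (H : (P = 3 ∧ K = kk 0 mx my ma 0 ∧ cx v = mx ∧ cy v = my ∧ (ci v = 0 ∨ ci v = ma)) ∨
        (K = kk 1 (-mx) (-my) (-ma) z ∧ ci v = ma ∧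
          ((P = 0 ∧ cx v = mx ∧ cy v + 1 = my) ∨ (P = 1 ∧ cx v = mx ∧ cy v = my) ∨
            (P = 2 ∧ cx v = mx + 1 ∧ cy v = my))))
    (H' : (P' = 3 ∧ K' = kk 0 mx' my' ma' 0 ∧ cx v' = mx' ∧ cy v' = my' ∧
          (ci v' = 0 ∨ ci v' = ma')) ∨
        (K' = kk 1 (-mx') (-my') (-ma') z' ∧ ci v' = ma' ∧
          ((P' = 0 ∧ cx v' = mx' ∧ cy v' + 1 = my') ∨ (P' = 1 ∧ cx v' = mx' ∧ cy v' = my') ∨
            (P' = 2 ∧ cx v' = mx' + 1 ∧ cy v' = my'))))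
    (hma : 1 ≤ ma) (hma' : 1 ≤ ma') (hc : P = P') (h1 : vkey v < vkey v') (h2 : vkey v' < K) (h3 : K < K') : False := by
  rcases H with ⟨p1, rfl, a1, a2, a3⟩ | ⟨rfl, a1, H⟩
  · rcases H' with ⟨p2, rfl, b1, b2, b3⟩ | ⟨rfl, b1, H'⟩
    · rcases vkey_eq v with ⟨c1, c2⟩ | ⟨c1, c2⟩ <;>
        rcases vkey_eq v' with ⟨d1, d2⟩ | ⟨d1, d2⟩ <;>
        simp only [c2, d2, kk_lt] at h1 h2 h3 <;> omega
    · rcases H' with ⟨p2, _⟩ | ⟨p2, _⟩ | ⟨p2, _⟩ <;>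
        · rw [p1, p2] at hc
          exact absurd hc (by decide)
  · rcases H' with ⟨p2, rfl, b1, b2, b3⟩ | ⟨rfl, b1, H'⟩
    · rcases H with ⟨p1, _⟩ | ⟨p1, _⟩ | ⟨p1, _⟩ <;>
        · rw [p1, p2] at hc
          exact absurd hc (by decide)
    · have hD : (cx v - mx = cx v' - mx' ∧ cy v - my = cy v' - my') := by
        rcases H with ⟨p1, q1, q2⟩ | ⟨p1, q1, q2⟩ | ⟨p1, q1, q2⟩ <;>
          rcases H' with ⟨p2, r1, r2⟩ | ⟨p2, r1, r2⟩ | ⟨p2, r1, r2⟩ <;>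
          first
            | (exfalso; rw [p1, p2] at hc; exact absurd hc (by decide))
            | (constructor <;> omega)
      clear H H'
      simp only [vkey, kk_lt] at h1 h2 h3
      omega

theorem cross_ve {v v' : VT n a} {P P' : Fin 4} {K K' : LL} {mx my ma z mx' my' ma' z' : ℤ}
    (H : (P = 3 ∧ K = kk 0 mx my ma 0 ∧ cx v = mx ∧ cy v = my ∧ (ci v = 0 ∨ ci v = ma)) ∨
        (K = kk 1 (-mx) (-my) (-ma) z ∧ ci v = ma ∧
          ((P = 0 ∧ cx v = mx ∧ cy v + 1 = my) ∨ (P = 1 ∧ cx v = mx ∧ cy v = my) ∨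
            (P = 2 ∧ cx v = mx + 1 ∧ cy v = my))))
    (H' : (P' = 3 ∧ K' = kk 0 mx' my' ma' 0 ∧ cx v' = mx' ∧ cy v' = my' ∧
          (ci v' = 0 ∨ ci v' = ma')) ∨
        (K' = kk 1 (-mx') (-my') (-ma') z' ∧ ci v' = ma' ∧
          ((P' = 0 ∧ cx v' = mx' ∧ cy v' + 1 = my') ∨ (P' = 1 ∧ cx v' = mx' ∧ cy v' = my') ∨
            (P' = 2 ∧ cx v' = mx' + 1 ∧ cy v' = my'))))
    (hma : 1 ≤ ma) (hma' : 1 ≤ ma') (hc : P = P') (h1 : vkey v < K') (h2 : K' < K) (h3 : K < vkey v') : False := by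
  rcases H with ⟨p1, rfl, a1, a2, a3⟩ | ⟨rfl, a1, H⟩
  · rcases H' with ⟨p2, rfl, b1, b2, b3⟩ | ⟨rfl, b1, H'⟩
    · rcases vkey_eq v with ⟨c1, c2⟩ | ⟨c1, c2⟩ <;>
        rcases vkey_eq v' with ⟨d1, d2⟩ | ⟨d1, d2⟩ <;>
        simp only [c2, d2, kk_lt] at h1 h2 h3 <;> omega
    · rcases H' with ⟨p2, _⟩ | ⟨p2, _⟩ | ⟨p2, _⟩ <;>
        · rw [p1, p2] at hc
          exact absurd hc (by decide)
  · rcases H' with ⟨p2, rfl, b1, b2, b3⟩ | ⟨rfl, b1, H'⟩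
    · rcases H with ⟨p1, _⟩ | ⟨p1, _⟩ | ⟨p1, _⟩ <;>
        · rw [p1, p2] at hc
          exact absurd hc (by decide)
    · have hD : (cx v - mx = cx v' - mx' ∧ cy v - my = cy v' - my') := by
        rcases H with ⟨p1, q1, q2⟩ | ⟨p1, q1, q2⟩ | ⟨p1, q1, q2⟩ <;>
          rcases H' with ⟨p2, r1, r2⟩ | ⟨p2, r1, r2⟩ | ⟨p2, r1, r2⟩ <;>
          first
            | (exfalso; rw [p1, p2] at hc; exact absurd hc (by decide))
            | (constructor <;> omega)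
      clear H H'
      simp only [vkey, kk_lt] at h1 h2 h3
      omega

theorem cross_ev {v v' : VT n a} {P P' : Fin 4} {K K' : LL} {mx my ma z mx' my' ma' z' : ℤ}
    (H : (P = 3 ∧ K = kk 0 mx my ma 0 ∧ cx v = mx ∧ cy v = my ∧ (ci v = 0 ∨ ci v = ma)) ∨
        (K = kk 1 (-mx) (-my) (-ma) z ∧ ci v = ma ∧
          ((P = 0 ∧ cx v = mx ∧ cy v + 1 = my) ∨ (P = 1 ∧ cx v = mx ∧ cy v = my) ∨
            (P = 2 ∧ cx v = mx + 1 ∧ cy v = my))))
    (H' : (P' = 3 ∧ K' = kk 0 mx' my' ma' 0 ∧ cx v' = mx' ∧ cy v' = my' ∧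
          (ci v' = 0 ∨ ci v' = ma')) ∨
        (K' = kk 1 (-mx') (-my') (-ma') z' ∧ ci v' = ma' ∧
          ((P' = 0 ∧ cx v' = mx' ∧ cy v' + 1 = my') ∨ (P' = 1 ∧ cx v' = mx' ∧ cy v' = my') ∨
            (P' = 2 ∧ cx v' = mx' + 1 ∧ cy v' = my'))))
    (hma : 1 ≤ ma) (hma' : 1 ≤ ma') (hc : P = P') (h1 : K < vkey v') (h2 : vkey v' < vkey v) (h3 : vkey v < K') : False := by
  rcases H with ⟨p1, rfl, a1, a2, a3⟩ | ⟨rfl, a1, H⟩
  · rcases H' with ⟨p2, rfl, b1, b2, b3⟩ | ⟨rfl, b1, H'⟩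
    · rcases vkey_eq v with ⟨c1, c2⟩ | ⟨c1, c2⟩ <;>
        rcases vkey_eq v' with ⟨d1, d2⟩ | ⟨d1, d2⟩ <;>
        simp only [c2, d2, kk_lt] at h1 h2 h3 <;> omega
    · rcases H' with ⟨p2, _⟩ | ⟨p2, _⟩ | ⟨p2, _⟩ <;>
        · rw [p1, p2] at hc
          exact absurd hc (by decide)
  · rcases H' with ⟨p2, rfl, b1, b2, b3⟩ | ⟨rfl, b1, H'⟩
    · rcases H with ⟨p1, _⟩ | ⟨p1, _⟩ | ⟨p1, _⟩ <;>
        · rw [p1, p2] at hc
          exact absurd hc (by decide)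
    · have hD : (cx v - mx = cx v' - mx' ∧ cy v - my = cy v' - my') := by
        rcases H with ⟨p1, q1, q2⟩ | ⟨p1, q1, q2⟩ | ⟨p1, q1, q2⟩ <;>
          rcases H' with ⟨p2, r1, r2⟩ | ⟨p2, r1, r2⟩ | ⟨p2, r1, r2⟩ <;>
          first
            | (exfalso; rw [p1, p2] at hc; exact absurd hc (by decide))
            | (constructor <;> omega)
      clear H H'
      simp only [vkey, kk_lt] at h1 h2 h3
      omega

theorem cross_ee {v v' : VT n a} {P P' : Fin 4} {K K' : LL} {mx my ma z mx' my' ma' z' : ℤ}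
    (H : (P = 3 ∧ K = kk 0 mx my ma 0 ∧ cx v = mx ∧ cy v = my ∧ (ci v = 0 ∨ ci v = ma)) ∨
        (K = kk 1 (-mx) (-my) (-ma) z ∧ ci v = ma ∧
          ((P = 0 ∧ cx v = mx ∧ cy v + 1 = my) ∨ (P = 1 ∧ cx v = mx ∧ cy v = my) ∨
            (P = 2 ∧ cx v = mx + 1 ∧ cy v = my))))
    (H' : (P' = 3 ∧ K' = kk 0 mx' my' ma' 0 ∧ cx v' = mx' ∧ cy v' = my' ∧
          (ci v' = 0 ∨ ci v' = ma')) ∨
        (K' = kk 1 (-mx') (-my') (-ma') z' ∧ ci v' = ma' ∧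
          ((P' = 0 ∧ cx v' = mx' ∧ cy v' + 1 = my') ∨ (P' = 1 ∧ cx v' = mx' ∧ cy v' = my') ∨
            (P' = 2 ∧ cx v' = mx' + 1 ∧ cy v' = my'))))
    (hma : 1 ≤ ma) (hma' : 1 ≤ ma') (hc : P = P') (h1 : K < K') (h2 : K' < vkey v) (h3 : vkey v < vkey v') : False := by
  rcases H with ⟨p1, rfl, a1, a2, a3⟩ | ⟨rfl, a1, H⟩
  · rcases H' with ⟨p2, rfl, b1, b2, b3⟩ | ⟨rfl, b1, H'⟩
    · rcases vkey_eq v with ⟨c1, c2⟩ | ⟨c1, c2⟩ <;>
        rcases vkey_eq v' with ⟨d1, d2⟩ | ⟨d1, d2⟩ <;>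
        simp only [c2, d2, kk_lt] at h1 h2 h3 <;> omega
    · rcases H' with ⟨p2, _⟩ | ⟨p2, _⟩ | ⟨p2, _⟩ <;>
        · rw [p1, p2] at hc
          exact absurd hc (by decide)
  · rcases H' with ⟨p2, rfl, b1, b2, b3⟩ | ⟨rfl, b1, H'⟩
    · rcases H with ⟨p1, _⟩ | ⟨p1, _⟩ | ⟨p1, _⟩ <;>
        · rw [p1, p2] at hc
          exact absurd hc (by decide)
    · have hD : (cx v - mx = cx v' - mx' ∧ cy v - my = cy v' - my') := by
        rcases H with ⟨p1, q1, q2⟩ | ⟨p1, q1, q2⟩ | ⟨p1, q1, q2⟩ <;>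
          rcases H' with ⟨p2, r1, r2⟩ | ⟨p2, r1, r2⟩ | ⟨p2, r1, r2⟩ <;>
          first
            | (exfalso; rw [p1, p2] at hc; exact absurd hc (by decide))
            | (constructor <;> omega)
      clear H H'
      simp only [vkey, kk_lt] at h1 h2 h3
      omega

end LayAux

open LayAux in
theorem lay (n a : ℕ) : Pages (Sub1 (GG n a)) 4 := by
  classical
  choose q hq har using fun e : ↥(GG n a).edgeSet => exists_rep e
  let key : VT n a ⊕ ↥(GG n a).edgeSet → LL :=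
    Sum.elim vkey (fun e => ekey (q e).1 (q e).2)
  have hkey : Function.Injective key := by
    rintro (u | e) (v | e') h
    · exact congrArg Sum.inl (vkey_inj h)
    · exact absurd h (vkey_ne_ekey (har e'))
    · exact absurd h.symm (vkey_ne_ekey (har e))
    · have h1 := ekey_inj (har e) (har e') h
      refine congrArg Sum.inr (Subtype.ext ?_)
      rw [hq e, hq e', Sym2.eq_iff]
      exact h1
  obtain ⟨p, hp, hlt⟩ := rank key hkey
  let c : VT n a ⊕ ↥(GG n a).edgeSet → VT n a ⊕ ↥(GG n a).edgeSet → Fin 4 := fun s t =>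
    match s, t with
    | Sum.inl v, Sum.inr e => pg v (q e).1 (q e).2
    | Sum.inr e, Sum.inl v => pg v (q e).1 (q e).2
    | _, _ => 0
  have hmem : ∀ (v : VT n a) (e : ↥(GG n a).edgeSet), v ∈ (e : Sym2 (VT n a)) →
      v = (q e).1 ∨ v = (q e).2 := by
    intro v e h
    rw [hq e] at h
    exact Sym2.mem_iff.1 h
  refine ⟨p, hp, c, ?_, ?_⟩
  · rintro (u | e) (v | e') <;> rfl
  · intro A B X Y hAB hXY h1 h2 h3
    rw [hlt] at h1 h2 h3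
    rcases sub1_cases hAB with ⟨v, e, rfl, rfl, hv⟩ | ⟨v, e, rfl, rfl, hv⟩ <;>
      rcases sub1_cases hXY with ⟨v', e', rfl, rfl, hv'⟩ | ⟨v', e', rfl, rfl, hv'⟩ <;>
      obtain ⟨mx, my, ma, z, hma, H⟩ := ends (har e) (hmem v e hv) <;>
      obtain ⟨mx', my', ma', z', hma', H'⟩ := ends (har e') (hmem v' e' hv') <;>
      intro hc
    · change pg v (q e).1 (q e).2 = pg v' (q e').1 (q e').2 at hc
      change vkey v < vkey v' at h1
      change vkey v' < ekey (q e).1 (q e).2 at h2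
      change ekey (q e).1 (q e).2 < ekey (q e').1 (q e').2 at h3
      exact cross_vv H H' hma hma' hc h1 h2 h3
    · change pg v (q e).1 (q e).2 = pg v' (q e').1 (q e').2 at hc
      change vkey v < ekey (q e').1 (q e').2 at h1
      change ekey (q e').1 (q e').2 < ekey (q e).1 (q e).2 at h2
      change ekey (q e).1 (q e).2 < vkey v' at h3
      exact cross_ve H H' hma hma' hc h1 h2 h3
    · change pg v (q e).1 (q e).2 = pg v' (q e').1 (q e').2 at hc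
      change ekey (q e).1 (q e).2 < vkey v' at h1
      change vkey v' < vkey v at h2
      change vkey v < ekey (q e').1 (q e').2 at h3
      exact cross_ev H H' hma hma' hc h1 h2 h3
    · change pg v (q e).1 (q e).2 = pg v' (q e').1 (q e').2 at hc
      change ekey (q e).1 (q e).2 < ekey (q e').1 (q e').2 at h1
      change ekey (q e').1 (q e').2 < vkey v at h2
      change vkey v < vkey v' at h3
      exact cross_ee H H' hma hma' hc h1 h2 h3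

end Pool.Agent.BT
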