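import Pool.Agent.BT.Low
import Pool.Agent.BT.Lay

/-!
# MP_6a04bd_co: four pages for the 1-subdivision do not bound the book thickness

For every `s` there is a finite simple graph `G` whose 1-subdivision `G'` (every edge subdivided exactly once) has a
4-page book embedding and which itself has no `s`-page book embedding.
-/

set_option autoImplicit false

namespace Pool.Agent.BT.FourPagesFinal

theorem result :
    ∀ s : ℕ, ∃ (V : Type) (_ : Fintype V) (G : SimpleGraph V),
      (∃ p : V ⊕ ↥G.edgeSet → ℕ, Function.Injective p ∧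
        ∃ c : V ⊕ ↥G.edgeSet → V ⊕ ↥G.edgeSet → Fin 4,
          (∀ x y, c x y = c y x) ∧
          ∀ a b x y : V ⊕ ↥G.edgeSet,
            (SimpleGraph.fromRel (fun s t : V ⊕ ↥G.edgeSet =>
                ∃ (v : V) (e : ↥G.edgeSet), s = Sum.inl v ∧ t = Sum.inr e ∧ v ∈ (e : Sym2 V))).Adj a b →
            (SimpleGraph.fromRel (fun s t : V ⊕ ↥G.edgeSet =>
                ∃ (v : V) (e : ↥G.edgeSet), s = Sum.inl v ∧ t = Sum.inr e ∧ v ∈ (e : Sym2 V))).Adj x y →
            p a < p x → p x < p b → p b < p y → c a b ≠ c x y) ∧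
      ¬ (∃ p : V → ℕ, Function.Injective p ∧
        ∃ c : V → V → Fin s,
          (∀ u v, c u v = c v u) ∧
          ∀ a b x y : V, G.Adj a b → G.Adj x y →
            p a < p x → p x < p b → p b < p y → c a b ≠ c x y) := by
  intro s
  obtain ⟨n, a, h⟩ := Pool.Agent.BT.low s
  exact ⟨Pool.Agent.BT.VT n a, inferInstance, Pool.Agent.BT.GG n a, Pool.Agent.BT.lay n a, h⟩

end Pool.Agent.BT.FourPagesFinal
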