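import Mathlib

/-!
# BT module HEXPAR: the parity argument on the triangulated board `[0, m]²`

`A`, `C` are two disjoint sets of lattice points.  The left column is in `A`, the bottom row (except the corner) is in `C`,
the right column has no point of `A`, the top row no point of `C`.  Then some triangle of the board (with the diagonals
`(x, y) - (x+1, y+1)`) has one vertex in `A`, one in `C` and one in neither.

PROOF.  For two points put `e u v = 1` if one of them is in `A` and the other in `C`, else `0` (in `ZMod 2`).  If a triangle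
`u v w` is not `Bad` then `e u v + e v w + e u w = 0` (27 cases).  Add the two triangles of the unit square `(x, y)`; the diagonal
cancels: `h x y + v (x+1) y + h x (y+1) + v x y = 0`, `h x y = e (x,y) (x+1,y)`, `v x y = e (x,y) (x,y+1)`.  Sum over
`x, y < m`: everything cancels (telescoping, `2 = 0`) except
`∑_x (h x 0 + h x m) + ∑_y (v 0 y + v m y) = 0`.  But `h 0 0 = 1`, `h x 0 = 0` for `1 ≤ x < m`, `h x m = 0`, `v 0 y = 0`,
`v m y = 0`.
-/

set_option autoImplicit false

namespace Pool.Agent.BT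

/-- one of the three points is in `A`, another one in `C`, the remaining one in neither -/
def Bad (A C : ℕ × ℕ → Prop) (u v w : ℕ × ℕ) : Prop :=
  (A u ∧ C v ∧ ¬ A w ∧ ¬ C w) ∨ (A v ∧ C u ∧ ¬ A w ∧ ¬ C w) ∨
  (A u ∧ C w ∧ ¬ A v ∧ ¬ C v) ∨ (A w ∧ C u ∧ ¬ A v ∧ ¬ C v) ∨
  (A v ∧ C w ∧ ¬ A u ∧ ¬ C u) ∨ (A w ∧ C v ∧ ¬ A u ∧ ¬ C u)

open Classical in
/-- the indicator of an `A`-`C` pair -/
noncomputable def eAC (A C : ℕ × ℕ → Prop) (u v : ℕ × ℕ) : ZMod 2 :=
  if (A u ∧ C v) ∨ (A v ∧ C u) then 1 else 0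

theorem eAC_tri (A C : ℕ × ℕ → Prop) (hdis : ∀ u, ¬ (A u ∧ C u)) (u v w : ℕ × ℕ)
    (h : ¬ Bad A C u v w) : eAC A C u v + eAC A C v w + eAC A C u w = 0 := by
  have hu := hdis u
  have hv := hdis v
  have hw := hdis w
  unfold Bad at h
  unfold eAC
  by_cases a1 : A u <;> by_cases a2 : A v <;> by_cases a3 : A w <;>
  by_cases c1 : C u <;> by_cases c2 : C v <;> by_cases c3 : C w <;>
  simp_all <;> decide

theorem tel2 (f : ℕ → ZMod 2) (m : ℕ) :
    ∑ y ∈ Finset.range m, (f y + f (y + 1)) = f 0 + f m := by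
  induction m with
  | zero => simp [CharTwo.add_self_eq_zero]
  | succ m ih =>
    rw [Finset.sum_range_succ, ih]
    have h := CharTwo.add_self_eq_zero (f m)
    linear_combination h

theorem parity (m : ℕ) (hm : 0 < m) (A C : ℕ × ℕ → Prop)
    (hdis : ∀ u, ¬ (A u ∧ C u))
    (hA0 : ∀ y ≤ m, A (0, y)) (hC0 : ∀ x, 1 ≤ x → x ≤ m → C (x, 0))
    (hAr : ∀ y ≤ m, ¬ A (m, y)) (hCt : ∀ x ≤ m, ¬ C (x, m)) :
    ∃ x < m, ∃ y < m, Bad A C (x, y) (x + 1, y) (x + 1, y + 1) ∨
      Bad A C (x, y) (x, y + 1) (x + 1, y + 1) := by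
  by_contra hcon
  push Not at hcon
  set h : ℕ → ℕ → ZMod 2 := fun x y => eAC A C (x, y) (x + 1, y) with hh
  set v : ℕ → ℕ → ZMod 2 := fun x y => eAC A C (x, y) (x, y + 1) with hv
  have hsq : ∀ x < m, ∀ y < m, (h x y + h x (y + 1)) + (v x y + v (x + 1) y) = 0 := by
    intro x hx y hy
    obtain ⟨h1, h2⟩ := hcon x hx y hy
    have t1 := eAC_tri A C hdis _ _ _ h1
    have t2 := eAC_tri A C hdis _ _ _ h2
    have hd := CharTwo.add_self_eq_zero (eAC A C (x, y) (x + 1, y + 1))
    simp only [hh, hv]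
    linear_combination t1 + t2 - hd
  have hsum : ∑ x ∈ Finset.range m, ∑ y ∈ Finset.range m,
      ((h x y + h x (y + 1)) + (v x y + v (x + 1) y)) = 0 := by
    refine Finset.sum_eq_zero fun x hx => Finset.sum_eq_zero fun y hy => ?_
    exact hsq x (Finset.mem_range.1 hx) y (Finset.mem_range.1 hy)
  have hsplit : ∑ x ∈ Finset.range m, ∑ y ∈ Finset.range m,
      ((h x y + h x (y + 1)) + (v x y + v (x + 1) y))
      = ∑ x ∈ Finset.range m, (h x 0 + h x m) + ∑ y ∈ Finset.range m, (v 0 y + v m y) := by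
    simp only [Finset.sum_add_distrib (f := fun y => h _ y + h _ (y + 1))]
    rw [Finset.sum_add_distrib]
    congr 1
    · exact Finset.sum_congr rfl fun x _ => tel2 (h x) m
    · rw [Finset.sum_comm]
      exact Finset.sum_congr rfl fun y _ => tel2 (fun x => v x y) m
  rw [hsplit] at hsum
  have e1 : ∀ x ∈ Finset.range m, h x 0 + h x m = if x = 0 then 1 else 0 := by
    intro x hx
    have hx' := Finset.mem_range.1 hx
    have g1 : h x m = 0 := by
      simp only [hh, eAC]
      rw [if_neg]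
      rintro (⟨-, h1⟩ | ⟨-, h1⟩)
      · exact hCt (x + 1) (by omega) h1
      · exact hCt x (by omega) h1
    rw [g1, add_zero]
    by_cases hx0 : x = 0
    · subst hx0
      simp only [hh, eAC, if_true]
      rw [if_pos]
      left
      exact ⟨hA0 0 (by omega), hC0 1 le_rfl (by omega)⟩
    · rw [if_neg hx0]
      simp only [hh, eAC]
      rw [if_neg]
      have k1 := hC0 x (by omega) (by omega)
      have k2 := hC0 (x + 1) (by omega) (by omega)
      rintro (⟨h1, -⟩ | ⟨h1, -⟩)
      · exact hdis _ ⟨h1, k1⟩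
      · exact hdis _ ⟨h1, k2⟩
  have e2 : ∀ y ∈ Finset.range m, v 0 y + v m y = 0 := by
    intro y hy
    have hy' := Finset.mem_range.1 hy
    have g1 : v 0 y = 0 := by
      simp only [hv, eAC]
      rw [if_neg]
      have k1 := hA0 y (by omega)
      have k2 := hA0 (y + 1) (by omega)
      rintro (⟨-, h1⟩ | ⟨-, h1⟩)
      · exact hdis _ ⟨k2, h1⟩
      · exact hdis _ ⟨k1, h1⟩
    have g2 : v m y = 0 := by
      simp only [hv, eAC]
      rw [if_neg]
      rintro (⟨h1, -⟩ | ⟨h1, -⟩)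
      · exact hAr y (by omega) h1
      · exact hAr (y + 1) (by omega) h1
    rw [g1, g2, add_zero]
  rw [Finset.sum_congr rfl e1, Finset.sum_eq_zero e2, add_zero, Finset.sum_ite_eq'] at hsum
  rw [if_pos (Finset.mem_range.2 hm)] at hsum
  exact one_ne_zero hsum

end Pool.Agent.BT
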