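import Pool.Agent.BT.Defs
import Pool.Agent.BT.HexPar

/-!
# BT module HEXCON: the Hex lemma

Every two-colouring `sg` of the triangulated `n × n` grid (`n ≥ 1`) has a monochromatic connected set with at least `n` points.

PROOF.  `m = n + 1`; the inner point `(x, y)`, `1 ≤ x, y ≤ n`, is the grid point `(x - 1, y - 1)`.  Call a grid point `K` *left*
if `sg K = true` and `K` can be reached from some `K₀` with first coordinate `0` through `TR`-steps between points of colour `true`;
*low* if `sg K = false` and it can be reached from some `K₀` with second coordinate `0` through points of colour `false`.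
`A (x, y)`: `x = 0`, or inner and left.  `C (x, y)`: `y = 0 ∧ 1 ≤ x`, or inner and low.  Apply `parity`.  In a `Bad` triangle
(all three points are pairwise adjacent) let `w` be the point in neither `A` nor `C`, `u ∈ A`, `v ∈ C` adjacent to `w`.
If `w` is inner and `sg w = true`: `u` is inner and left, so `w` is left, or `u` is in the column `0`, so `w` has first coordinate `1` on the board
and is left by itself: contradiction.  Same with `sg w = false` and `v`.  If `w` is not inner, it is not in the column `0`, nor in the row `0`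
(the corner `(0, 0)` is in `A`), so `w = (m, y)` or `w = (x, m)`.  In the first case (`1 ≤ y`) `u` has first coordinate `≥ n ≥ 1`, is not in the column `0`
(if `n ≥ 1`; `u` has first coordinate `n` or `n + 1`), so `u` is inner and left with first coordinate `n`.
In the second case `v` is inner and low with second coordinate `n`.
So there is a left point `K` with first coordinate `n - 1` (grid coordinates) or a low point with second coordinate `n - 1`.
In the first case `S` = the set of points of colour `true` reachable from `K` through points of colour `true`: connected, contains a point with first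
coordinate `0` and one with `n - 1`, and a `TR`-step changes the first coordinate by at most `1`, so all `n` values occur and `n ≤ S.card`.
-/

set_option autoImplicit false

namespace Pool.Agent.BT

/-- discrete intermediate value theorem along a path -/
theorem hexcon_path {V : Type} (R : V → V → Prop) (f : V → ℕ)
    (hR : ∀ u v, R u v → f v ≤ f u + 1) {a b : V} (h : Relation.ReflTransGen R a b) :
    ∀ j, f a ≤ j → j ≤ f b → ∃ c, Relation.ReflTransGen R a c ∧ f c = j := by
  induction h with
  | refl =>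
    intro j h1 h2
    exact ⟨a, Relation.ReflTransGen.refl, le_antisymm h1 h2⟩
  | tail hab hbc ih =>
    intro j h1 h2
    rename_i b c
    by_cases hj : j ≤ f b
    · exact ih j h1 hj
    · refine ⟨c, hab.tail hbc, ?_⟩
      have := hR _ _ hbc
      omega

/-- the relation: steps between points of colour `b` -/
def RB {n : ℕ} (sg : Fin n × Fin n → Bool) (b : Bool) (u v : Fin n × Fin n) : Prop :=
  TR u v ∧ sg u = b ∧ sg v = b

theorem rtg_symm {V : Type} {R : V → V → Prop} (h : ∀ u v, R u v → R v u) {a b : V}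
    (hab : Relation.ReflTransGen R a b) : Relation.ReflTransGen R b a := by
  induction hab with
  | refl => exact Relation.ReflTransGen.refl
  | tail _ hbc ih => exact Relation.ReflTransGen.head (h _ _ hbc) ih

theorem hexcon_fin (n : ℕ) (hn : 1 ≤ n) (sg : Fin n × Fin n → Bool) (b : Bool)
    (f : Fin n × Fin n → ℕ) (hf : ∀ u v, TR u v → f v ≤ f u + 1) (K₀ K : Fin n × Fin n)
    (h0 : f K₀ = 0) (hK : f K = n - 1) (hs : sg K₀ = b)
    (hreach : Relation.ReflTransGen (RB sg b) K₀ K) :
    ∃ (b : Bool) (S : Finset (Fin n × Fin n)), (∀ K ∈ S, sg K = b) ∧ n ≤ S.card ∧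
      ∀ K ∈ S, ∀ K' ∈ S, Relation.ReflTransGen (fun u v => TR u v ∧ u ∈ S ∧ v ∈ S) K K' := by
  classical
  obtain ⟨S, hS⟩ : ∃ S : Finset (Fin n × Fin n),
      ∀ u, u ∈ S ↔ Relation.ReflTransGen (RB sg b) K₀ u :=
    ⟨Finset.univ.filter fun u => Relation.ReflTransGen (RB sg b) K₀ u, fun u => by simp⟩
  refine ⟨b, S, ?_, ?_, ?_⟩
  · intro u hu
    rw [hS] at hu
    rcases Relation.ReflTransGen.cases_tail hu with h | ⟨c, _, h⟩
    · rw [← hs, h]
    · exact h.2.2
  · have h1 : Finset.range n ⊆ S.image f := by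
      intro j hj
      rw [Finset.mem_range] at hj
      obtain ⟨c, hc1, hc2⟩ := hexcon_path (RB sg b) f (fun u v h => hf u v h.1) hreach j
        (by omega) (by omega)
      exact Finset.mem_image.mpr ⟨c, (hS c).mpr hc1, hc2⟩
    have h2 := Finset.card_le_card h1
    rw [Finset.card_range] at h2
    exact h2.trans Finset.card_image_le
  · have key : ∀ u, Relation.ReflTransGen (RB sg b) K₀ u →
        Relation.ReflTransGen (fun u v => TR u v ∧ u ∈ S ∧ v ∈ S) K₀ u := by
      intro u hu
      induction hu with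
      | refl => exact Relation.ReflTransGen.refl
      | tail h1 h2 ih => exact ih.tail ⟨h2.1, (hS _).mpr h1, (hS _).mpr (h1.tail h2)⟩
    intro u hu v hv
    exact (rtg_symm (fun _ _ h => ⟨TR_symm h.1, h.2.2, h.2.1⟩) (key u ((hS u).mp hu))).trans
      (key v ((hS v).mp hv))

/-- points reachable from the side where `f` vanishes, through points of colour `b` -/
def Lf {n : ℕ} (sg : Fin n × Fin n → Bool) (b : Bool) (f : Fin n × Fin n → ℕ)
    (K : Fin n × Fin n) : Prop :=
  sg K = b ∧ ∃ K₀, f K₀ = 0 ∧ sg K₀ = b ∧ Relation.ReflTransGen (RB sg b) K₀ K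

theorem Lf_zero {n : ℕ} {sg : Fin n × Fin n → Bool} {b : Bool} {f : Fin n × Fin n → ℕ}
    {K : Fin n × Fin n} (h : sg K = b) (h0 : f K = 0) : Lf sg b f K :=
  ⟨h, K, h0, h, Relation.ReflTransGen.refl⟩

theorem Lf_step {n : ℕ} {sg : Fin n × Fin n → Bool} {b : Bool} {f : Fin n × Fin n → ℕ}
    {K K' : Fin n × Fin n} (h : Lf sg b f K') (hs : sg K = b) (hT : TR K' K) : Lf sg b f K := by
  obtain ⟨h1, K₀, h2, h3, h4⟩ := h
  exact ⟨hs, K₀, h2, h3, h4.tail ⟨hT, h1, hs⟩⟩

theorem hexcon_tri (n : ℕ) (hn : 1 ≤ n) (sg : Fin n × Fin n → Bool) (A C : ℕ × ℕ → Prop)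
    (hA : ∀ p, A p ↔ (p.1 = 0 ∨ ∃ K : Fin n × Fin n, p.1 = K.1.val + 1 ∧ p.2 = K.2.val + 1 ∧
      Lf sg true (fun K => K.1.val) K))
    (hC : ∀ p, C p ↔ ((p.2 = 0 ∧ 1 ≤ p.1) ∨ ∃ K : Fin n × Fin n, p.1 = K.1.val + 1 ∧
      p.2 = K.2.val + 1 ∧ Lf sg false (fun K => K.2.val) K))
    (u v w : ℕ × ℕ) (hu : A u) (hv : C v) (hwA : ¬ A w) (hwC : ¬ C w)
    (huw : stp u w ∨ stp w u) (hvw : stp v w ∨ stp w v) (hw1 : w.1 ≤ n + 1) (hw2 : w.2 ≤ n + 1) :
    (∃ K : Fin n × Fin n, K.1.val = n - 1 ∧ Lf sg true (fun K => K.1.val) K) ∨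
    (∃ K : Fin n × Fin n, K.2.val = n - 1 ∧ Lf sg false (fun K => K.2.val) K) := by
  rw [hA] at hu hwA
  rw [hC] at hv hwC
  have w1 : w.1 ≠ 0 := fun h => hwA (Or.inl h)
  have w2 : w.2 ≠ 0 := fun h => hwC (Or.inl ⟨h, by omega⟩)
  unfold stp at huw hvw
  by_cases c1 : w.1 = n + 1
  · left
    rcases hu with h | ⟨K, k1, k2, k3⟩
    · omega
    · refine ⟨K, ?_, k3⟩
      have := K.1.isLt
      omega
  · by_cases c2 : w.2 = n + 1
    · right
      rcases hv with h | ⟨K, k1, k2, k3⟩
      · omega
      · refine ⟨K, ?_, k3⟩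
        have := K.2.isLt
        omega
    · exfalso
      obtain ⟨K, k1, k2⟩ : ∃ K : Fin n × Fin n, w.1 = K.1.val + 1 ∧ w.2 = K.2.val + 1 :=
        ⟨(⟨w.1 - 1, by omega⟩, ⟨w.2 - 1, by omega⟩), by simp only; omega, by simp only; omega⟩
      cases hsg : sg K with
      | true =>
        apply hwA
        refine Or.inr ⟨K, k1, k2, ?_⟩
        rcases hu with h | ⟨K', k1', k2', k3'⟩
        · exact Lf_zero hsg (by show K.1.val = 0; omega)
        · refine Lf_step k3' hsg ?_
          unfold TR stp
          simp only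
          omega
      | false =>
        apply hwC
        refine Or.inr ⟨K, k1, k2, ?_⟩
        rcases hv with h | ⟨K', k1', k2', k3'⟩
        · exact Lf_zero hsg (by show K.2.val = 0; omega)
        · refine Lf_step k3' hsg ?_
          unfold TR stp
          simp only
          omega

theorem hex (n : ℕ) (hn : 1 ≤ n) (sg : Fin n × Fin n → Bool) :
    ∃ (b : Bool) (S : Finset (Fin n × Fin n)), (∀ K ∈ S, sg K = b) ∧ n ≤ S.card ∧
      ∀ K ∈ S, ∀ K' ∈ S, Relation.ReflTransGen (fun u v => TR u v ∧ u ∈ S ∧ v ∈ S) K K' := by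
  obtain ⟨A, hA⟩ : ∃ A : ℕ × ℕ → Prop, ∀ p, A p ↔ (p.1 = 0 ∨ ∃ K : Fin n × Fin n,
      p.1 = K.1.val + 1 ∧ p.2 = K.2.val + 1 ∧ Lf sg true (fun K => K.1.val) K) :=
    ⟨fun p => (p.1 = 0 ∨ ∃ K : Fin n × Fin n,
      p.1 = K.1.val + 1 ∧ p.2 = K.2.val + 1 ∧ Lf sg true (fun K => K.1.val) K), fun _ => Iff.rfl⟩
  obtain ⟨C, hC⟩ : ∃ C : ℕ × ℕ → Prop, ∀ p, C p ↔ ((p.2 = 0 ∧ 1 ≤ p.1) ∨
      ∃ K : Fin n × Fin n, p.1 = K.1.val + 1 ∧ p.2 = K.2.val + 1 ∧
      Lf sg false (fun K => K.2.val) K) :=
    ⟨fun p => ((p.2 = 0 ∧ 1 ≤ p.1) ∨ ∃ K : Fin n × Fin n,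
      p.1 = K.1.val + 1 ∧ p.2 = K.2.val + 1 ∧ Lf sg false (fun K => K.2.val) K),
      fun _ => Iff.rfl⟩
  have hlast : (∃ K : Fin n × Fin n, K.1.val = n - 1 ∧ Lf sg true (fun K => K.1.val) K) ∨
      (∃ K : Fin n × Fin n, K.2.val = n - 1 ∧ Lf sg false (fun K => K.2.val) K) := by
    obtain ⟨x, hx, y, hy, hbad⟩ := parity (n + 1) (by omega) A C
      (by
        rintro u ⟨h1, h2⟩
        rw [hA] at h1
        rw [hC] at h2
        rcases h1 with h1 | ⟨K, k1, k2, k3⟩
        · rcases h2 with h2 | ⟨K', k1', k2', k3'⟩ <;> omega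
        · rcases h2 with h2 | ⟨K', k1', k2', k3'⟩
          · omega
          · have hK : K = K' := by
              apply Prod.ext <;> apply Fin.ext <;> omega
            subst hK
            have e1 := k3.1
            have e2 := k3'.1
            rw [e1] at e2
            exact absurd e2 (by decide))
      (fun y _ => (hA _).mpr (Or.inl rfl))
      (fun x hx _ => (hC _).mpr (Or.inl ⟨rfl, hx⟩))
      (by
        intro y _ h
        rw [hA] at h
        rcases h with h | ⟨K, k1, k2, k3⟩
        · simp only at h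
          omega
        · have := K.1.isLt
          simp only at k1
          omega)
      (by
        intro x _ h
        rw [hC] at h
        rcases h with h | ⟨K, k1, k2, k3⟩
        · simp only at h
          omega
        · have := K.2.isLt
          simp only at k2
          omega)
    have tri := hexcon_tri n hn sg A C hA hC
    rcases hbad with h | h <;> unfold Bad at h <;>
      rcases h with ⟨h1, h2, h3, h4⟩ | ⟨h1, h2, h3, h4⟩ | ⟨h1, h2, h3, h4⟩ | ⟨h1, h2, h3, h4⟩ |
        ⟨h1, h2, h3, h4⟩ | ⟨h1, h2, h3, h4⟩ <;>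
      exact tri _ _ _ h1 h2 h3 h4 (by simp [stp]) (by simp [stp]) (by simp only; omega)
        (by simp only; omega)
  rcases hlast with ⟨K, hK, h1, K₀, h2, h3, h4⟩ | ⟨K, hK, h1, K₀, h2, h3, h4⟩
  · exact hexcon_fin n hn sg true (fun K => K.1.val) (by
      intro u v huv
      unfold TR stp at huv
      simp only at huv ⊢
      omega) K₀ K h2 hK h3 h4
  · exact hexcon_fin n hn sg false (fun K => K.2.val) (by
      intro u v huv
      unfold TR stp at huv
      simp only at huv ⊢
      omega) K₀ K h2 hK h3 h4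

end Pool.Agent.BT
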