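import Pool.Agent.BT.Ram
import Pool.Agent.BT.Core
import Pool.Agent.BT.HexCon

/-!
# BT module LOW: the book thickness of `GG n a` is unbounded
-/

set_option autoImplicit false

namespace Pool.Agent.BT

theorem low_aux {n a s : ℕ} (p : VT n a → ℕ) (hp : Function.Injective p)
    (c : VT n a → VT n a → Fin s) (hc : ∀ u v, c u v = c v u)
    (hx : ∀ u v x y : VT n a, (GG n a).Adj u v → (GG n a).Adj x y →
        p u < p x → p x < p v → p v < p y → c u v ≠ c x y)
    (f : Fin 6 → Fin a) (hf : Function.Injective f)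
    (hstar : ∀ (K : Fin n × Fin n) (i j : Fin 6),
        c (Sum.inr K) (Sum.inl (f i, K)) = c (Sum.inr K) (Sum.inl (f j, K)))
    (hedge : ∀ (K K' : Fin n × Fin n) (i j : Fin 6),
        c (Sum.inl (f i, K)) (Sum.inl (f i, K')) = c (Sum.inl (f j, K)) (Sum.inl (f j, K')))
    (hom : ∀ (K K' : Fin n × Fin n) (i j k l : Fin 6), i < j → k < l →
        (p (Sum.inl (f i, K)) < p (Sum.inl (f j, K')) ↔
          p (Sum.inl (f k, K)) < p (Sum.inl (f l, K'))))
    (S : Finset (Fin n × Fin n))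
    (hS : ∀ K ∈ S, p (Sum.inl (f 0, K)) < p (Sum.inl (f 1, K)))
    (hconn : ∀ K ∈ S, ∀ K' ∈ S, Relation.ReflTransGen (fun u v => TR u v ∧ u ∈ S ∧ v ∈ S) K K') :
    S.card ≤ s := by
  have hstar' : ∀ (K : Fin n × Fin n) (i : Fin 6), (GG n a).Adj (Sum.inr K) (Sum.inl (f i, K)) :=
    fun K i => rfl
  refine core (s := s) TR (fun K K' h => TR_symm h) (fun i K => p (Sum.inl (f i, K)))
    (fun K => p (Sum.inr K)) (fun K => c (Sum.inr K) (Sum.inl (f 0, K))) ?_ ?_ ?_ ?_ hom ?_ ?_ ?_
    S hS hconn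
  · intro i K j K' h
    have h1 := hp h
    rw [Sum.inl.injEq, Prod.mk.injEq] at h1
    exact ⟨hf h1.1, h1.2⟩
  · intro K i K' h
    exact absurd (hp h) (by simp)
  · intro K K' h
    exact Sum.inr.inj (hp h)
  · intro K K' i j hT ⟨h1, h2, h3⟩
    exact hx (Sum.inl (f i, K)) (Sum.inl (f i, K')) (Sum.inl (f j, K)) (Sum.inl (f j, K'))
      ⟨rfl, hT⟩ ⟨rfl, hT⟩ h1 h2 h3 (hedge K K' i j)
  · intro K K' i j hσ ⟨h1, h2, h3⟩
    refine hx (Sum.inr K) (Sum.inl (f i, K)) (Sum.inr K') (Sum.inl (f j, K'))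
      (hstar' K i) (hstar' K' j) h1 h2 h3 ?_
    rw [hstar K i 0, hstar K' j 0]
    exact hσ
  · intro K K' i j hσ ⟨h1, h2, h3⟩
    refine hx (Sum.inl (f i, K)) (Sum.inr K) (Sum.inl (f j, K')) (Sum.inr K')
      (hstar' K i).symm (hstar' K' j).symm h1 h2 h3 ?_
    rw [hc _ (Sum.inr K), hc _ (Sum.inr K'), hstar K i 0, hstar K' j 0]
    exact hσ
  · intro K K' i j hσ ⟨h1, h2, h3⟩
    refine hx (Sum.inr K) (Sum.inl (f i, K)) (Sum.inl (f j, K')) (Sum.inr K')
      (hstar' K i) (hstar' K' j).symm h1 h2 h3 ?_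
    rw [hc _ (Sum.inr K'), hstar K i 0, hstar K' j 0]
    exact hσ

theorem low (s : ℕ) : ∃ n a : ℕ, ¬ Pages (GG n a) s := by
  obtain ⟨a, ha⟩ := ram (s + 1) s
  refine ⟨s + 1, a, ?_⟩
  rintro ⟨p, hp, c, hc, hx⟩
  obtain ⟨g, hg, hstar, hedge, hom⟩ := ha p c
  obtain ⟨b, S, hSb, hScard, hconn⟩ := hex (s + 1) (by omega)
    (fun K => decide (p (Sum.inl (g 0, K)) < p (Sum.inl (g 1, K))))
  have hne : ∀ (K K' : Fin (s + 1) × Fin (s + 1)) (i j : Fin 6), i ≠ j →
      p (Sum.inl (g i, K)) ≠ p (Sum.inl (g j, K')) := by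
    intro K K' i j hij h
    have h1 := hp h
    rw [Sum.inl.injEq, Prod.mk.injEq] at h1
    exact hij (hg.injective h1.1)
  cases b with
  | true =>
    have h := low_aux p hp c hc hx g hg.injective hstar hedge hom S
      (fun K hK => by simpa using hSb K hK) hconn
    omega
  | false =>
    have hnot : ∀ K ∈ S, ∀ i j : Fin 6, i < j →
        p (Sum.inl (g j, K)) < p (Sum.inl (g i, K)) := by
      intro K hK i j hij
      have h1 : ¬ p (Sum.inl (g 0, K)) < p (Sum.inl (g 1, K)) := by simpa using hSb K hK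
      have h2 : ¬ p (Sum.inl (g i, K)) < p (Sum.inl (g j, K)) := by
        rw [hom K K i j 0 1 hij (by decide)]
        exact h1
      have h3 := hne K K i j hij.ne
      omega
    have h := low_aux p hp c hc hx (fun i => g (Fin.rev i))
      (fun i j h => Fin.rev_injective (hg.injective h))
      (fun K i j => hstar K _ _) (fun K K' i j => hedge K K' _ _)
      (fun K K' i j k l hij hkl => by
        have e1 := hom K' K (Fin.rev j) (Fin.rev i) (Fin.rev l) (Fin.rev k)
          (Fin.rev_lt_rev.2 hij) (Fin.rev_lt_rev.2 hkl)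
        have n1 := hne K' K (Fin.rev j) (Fin.rev i) (Fin.rev_lt_rev.2 hij).ne
        have n2 := hne K' K (Fin.rev l) (Fin.rev k) (Fin.rev_lt_rev.2 hkl).ne
        constructor
        · intro h
          by_contra h'
          have : p (Sum.inl (g (Fin.rev l), K')) < p (Sum.inl (g (Fin.rev k), K)) := by omega
          have := e1.2 this
          omega
        · intro h
          by_contra h'
          have : p (Sum.inl (g (Fin.rev j), K')) < p (Sum.inl (g (Fin.rev i), K)) := by omega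
          have := e1.1 this
          omega) S
      (fun K hK => hnot K hK _ _ (by decide)) hconn
    omega

end Pool.Agent.BT
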