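import Pool.Agent.BT.Defs
import Pool.Agent.Hhelper41.Cover.Ramsey

/-!
# BT module RAM: six indices on which everything is homogeneous

PROOF.  `ramsey_fun 2 C m` / `ramsey_set 2` for the finite colour type `C` of the following data of a pair `i < j`
of indices: star colours `K ↦ c (inr K) (inl (i, K))`, edge colours `(K, K') ↦ c (inl (i, K)) (inl (i, K'))`
(both for `i` and for `j`, as elements of function types into `Fin s`), and the comparison table
`(K, K') ↦ decide (p (inl (i, K)) < p (inl (j, K')))`.  Take `m = 7` and use the first six indices `H 0 < … < H 5` of the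
homogeneous set `Y`: constancy on pairs gives the constancy of the star colours and of the edge colours
(data of `i` in the pair `(H i, H 6)`), and the last property.  (Take `a = M`, indices outside `range M` get a dummy value; if `M = 0`
use `a = M + 1`.)
-/

set_option autoImplicit false

namespace Pool.Agent.BT

theorem ram (n s : ℕ) : ∃ a : ℕ, ∀ (p : VT n a → ℕ) (c : VT n a → VT n a → Fin s),
    ∃ g : Fin 6 → Fin a, StrictMono g ∧
      (∀ (K : Fin n × Fin n) (i j : Fin 6),
        c (Sum.inr K) (Sum.inl (g i, K)) = c (Sum.inr K) (Sum.inl (g j, K))) ∧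
      (∀ (K K' : Fin n × Fin n) (i j : Fin 6),
        c (Sum.inl (g i, K)) (Sum.inl (g i, K')) = c (Sum.inl (g j, K)) (Sum.inl (g j, K'))) ∧
      ∀ (K K' : Fin n × Fin n) (i j k l : Fin 6), i < j → k < l →
        (p (Sum.inl (g i, K)) < p (Sum.inl (g j, K')) ↔
          p (Sum.inl (g k, K)) < p (Sum.inl (g l, K'))) := by
  obtain ⟨M, hM⟩ := Pool.Agent.Hhelper41.Cover.ramsey_fun 2
    (((Fin n × Fin n) → Fin s) × ((Fin n × Fin n) → (Fin n × Fin n) → Fin s) ×
      ((Fin n × Fin n) → (Fin n × Fin n) → Bool)) 7
  refine ⟨M + 1, fun p c => ?_⟩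
  obtain ⟨Y, hYM, hYc, k, hk⟩ := hM (fun g =>
    (fun K => c (Sum.inr K) (Sum.inl (Fin.ofNat (M + 1) (g 0), K)),
      fun K K' => c (Sum.inl (Fin.ofNat (M + 1) (g 0), K)) (Sum.inl (Fin.ofNat (M + 1) (g 0), K')),
      fun K K' => decide (p (Sum.inl (Fin.ofNat (M + 1) (g 0), K)) <
        p (Sum.inl (Fin.ofNat (M + 1) (g 1), K')))))
  set H := Y.orderEmbOfFin hYc with hH
  have hmem : ∀ i, H i ∈ Y := fun i => Finset.orderEmbOfFin_mem _ _ _
  have hlt : ∀ i, H i < M := fun i => by simpa using hYM (hmem i)
  have hpair : ∀ i j : Fin 7, i < j →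
      (fun K => c (Sum.inr K) (Sum.inl (Fin.ofNat (M + 1) (H i), K)),
        fun K K' => c (Sum.inl (Fin.ofNat (M + 1) (H i), K))
          (Sum.inl (Fin.ofNat (M + 1) (H i), K')),
        fun K K' => decide (p (Sum.inl (Fin.ofNat (M + 1) (H i), K)) <
          p (Sum.inl (Fin.ofNat (M + 1) (H j), K')))) = k := by
    intro i j hij
    have h := hk ![H i, H j] (by
      intro x y hxy
      fin_cases x <;> fin_cases y
      · exact absurd hxy (lt_irrefl _)
      · exact H.lt_iff_lt.2 hij
      · exact absurd hxy (by decide)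
      · exact absurd hxy (lt_irrefl _)) (by
      intro x
      fin_cases x
      · exact hmem i
      · exact hmem j)
    exact h
  have hcast : ∀ i : Fin 6, i.castSucc < Fin.last 6 := fun i => Fin.castSucc_lt_last i
  refine ⟨fun i => Fin.ofNat (M + 1) (H i.castSucc), ?_, ?_, ?_, ?_⟩
  · intro i j hij
    have h1 : H i.castSucc < H j.castSucc := H.lt_iff_lt.2 (by simpa using hij)
    have h2 := hlt i.castSucc
    have h3 := hlt j.castSucc
    rw [Fin.lt_def]
    simp only [Fin.ofNat]
    rw [Nat.mod_eq_of_lt (by omega), Nat.mod_eq_of_lt (by omega)]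
    exact h1
  · intro K i j
    have h1 := congrFun (congrArg Prod.fst (hpair i.castSucc (Fin.last 6) (hcast i))) K
    have h2 := congrFun (congrArg Prod.fst (hpair j.castSucc (Fin.last 6) (hcast j))) K
    exact h1.trans h2.symm
  · intro K K' i j
    have h1 := congrFun (congrFun (congrArg (fun x => x.2.1)
      (hpair i.castSucc (Fin.last 6) (hcast i))) K) K'
    have h2 := congrFun (congrFun (congrArg (fun x => x.2.1)
      (hpair j.castSucc (Fin.last 6) (hcast j))) K) K'
    exact h1.trans h2.symm
  · intro K K' i j k' l hij hkl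
    have h1 := congrFun (congrFun (congrArg (fun x => x.2.2)
      (hpair i.castSucc j.castSucc (by simpa using hij))) K) K'
    have h2 := congrFun (congrFun (congrArg (fun x => x.2.2)
      (hpair k'.castSucc l.castSucc (by simpa using hkl))) K) K'
    have h3 := h1.trans h2.symm
    exact decide_eq_decide.1 h3

end Pool.Agent.BT
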